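import Pool.Agent.Lib.MP_87d05f_lc.DG.Stm

set_option autoImplicit false

namespace Pool.Agent.Lib.MP_87d05f_lc.DG

open Pool.Agent.Lib.MP_87d05f_lc Pool.Agent.Lib.MP_87d05f_lc.HG Pool.Agent.Lib.MP_87d05f_lc.TH
open Pool.Agent.Lib.MP_87d05f_lc.SP

variable {g d : ℕ} {ar : Fin g → ℕ}

private lemma BI_one (φ : (i : Fin g) → (Fin (ar i) → Fin d) → ℕ) (a : ℕ → Fin d) (s : Sy ar)
    (y : Fin (arS s) → ℕ) :
    phS φ s (fun j => a (y j)) =
      ((bwS s y).map (fun c => φ c.1 (fun j => a (c.2 j)))).getD 0 + oneS s := by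
  cases s with
  | inl s => simp [phS, bwS, oneS]
  | inr b => simp [phS, bwS, oneS]

private lemma BI_val (φ : (i : Fin g) → (Fin (ar i) → Fin d) → ℕ) (a : ℕ → Fin d)
    (F : List (Con (arX ar))) :
    valV (phX φ) a F = valC φ a (F.filterMap bwC) + ones F := by
  induction F with
  | nil => simp [valV, valC, ones]
  | cons q F ih =>
    have h1 : valV (phX φ) a (q :: F) = phX φ q.1 (fun j => a (q.2 j)) + valV (phX φ) a F := by
      simp [valV]
    have h2 : ones (q :: F) = oneS ((eS ar).symm q.1) + ones F := by simp [ones]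
    have h3 : phX φ q.1 (fun j => a (q.2 j)) =
        ((bwC q).map (fun c => φ c.1 (fun j => a (c.2 j)))).getD 0 + oneS ((eS ar).symm q.1) :=
      BI_one φ a ((eS ar).symm q.1) q.2
    have h4 : valC φ a ((q :: F).filterMap bwC) =
        ((bwC q).map (fun c => φ c.1 (fun j => a (c.2 j)))).getD 0 +
          valC φ a (F.filterMap bwC) := by
      cases hq : bwC q with
      | none => rw [List.filterMap_cons_none hq]; simp
      | some c => rw [List.filterMap_cons_some hq]; simp [valC]
    rw [h1, h2, h3, h4, ih]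
    ring

private lemma BI_occS (k : ℕ) (hk : ∀ i, ar i ≤ k) (s : Sy ar) (y : Fin (arS s) → ℕ) (v : ℕ) :
    ((bwS s y).map (fun c => (vsC c).count v)).getD 0 ≤ k * (List.ofFn y).count v := by
  cases s with
  | inr b => simp [bwS]
  | inl s =>
    by_cases hv : v ∈ List.ofFn y
    · have h1 : 1 ≤ (List.ofFn y).count v := List.count_pos_iff.2 hv
      have h2 : (vsC (⟨s.1, fun j => y (s.2.2 j)⟩ : Con ar)).count v ≤ ar s.1 := by
        refine (List.count_le_length).trans ?_
        simp [vsC]
      simp only [bwS, Option.map_some, Option.getD_some]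
      calc _ ≤ ar s.1 := h2
        _ ≤ k := hk _
        _ ≤ k * _ := Nat.le_mul_of_pos_right _ h1
    · have h2 : (vsC (⟨s.1, fun j => y (s.2.2 j)⟩ : Con ar)).count v = 0 := by
        rw [List.count_eq_zero]
        intro hv'
        apply hv
        simp only [vsC, List.mem_ofFn] at hv' ⊢
        obtain ⟨j, hj⟩ := hv'
        exact ⟨_, hj⟩
      simp only [bwS, Option.map_some, Option.getD_some]
      rw [h2]
      exact Nat.zero_le _

private lemma BI_occ (k : ℕ) (hk : ∀ i, ar i ≤ k) (F : List (Con (arX ar))) (v : ℕ) :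
    ((F.filterMap bwC).flatMap (vsC (ar := ar) (V := ℕ))).count v ≤
      k * (F.flatMap (vsC (ar := arX ar) (V := ℕ))).count v := by
  induction F with
  | nil => simp
  | cons q F ih =>
    have h0 := BI_occS k hk ((eS ar).symm q.1) q.2 v
    have h0' : ((bwC q).map (fun c => (vsC c).count v)).getD 0 ≤ k * (vsC q).count v := h0
    rw [List.flatMap_cons, List.count_append, mul_add]
    cases hq : bwC q with
    | none =>
      rw [List.filterMap_cons_none hq]
      exact ih.trans (Nat.le_add_left _ _)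
    | some c =>
      rw [List.filterMap_cons_some hq, List.flatMap_cons, List.count_append]
      rw [hq] at h0'
      simp only [Option.map_some, Option.getD_some] at h0'
      exact Nat.add_le_add h0' ih

private lemma BI_pos {α β : Type} (f : α → Option β) (F : List α) :
    ∃ p : ℕ → ℕ, StrictMono p ∧ ∀ q c, (F.filterMap f)[q]? = some c →
      ∃ c', F[p q]? = some c' ∧ f c' = some c := by
  induction F with
  | nil => exact ⟨id, strictMono_id, fun q c h => by simp at h⟩
  | cons x F ih =>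
    obtain ⟨p, hp, hpc⟩ := ih
    cases hx : f x with
    | none =>
      refine ⟨fun q => p q + 1, fun a b hab => Nat.add_lt_add_right (hp hab) 1, fun q c h => ?_⟩
      rw [List.filterMap_cons_none hx] at h
      obtain ⟨c', h1, h2⟩ := hpc q c h
      exact ⟨c', by rw [List.getElem?_cons_succ]; exact h1, h2⟩
    | some y =>
      refine ⟨fun q => if q = 0 then 0 else p (q - 1) + 1, ?_, fun q c h => ?_⟩
      · intro a b hab
        simp only
        have hb : b ≠ 0 := by omega
        rw [if_neg hb]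
        split_ifs with ha
        · omega
        · have : p (a - 1) < p (b - 1) := hp (by omega)
          omega
      · rw [List.filterMap_cons_some hx] at h
        cases q with
        | zero =>
          refine ⟨x, by simp, ?_⟩
          rw [List.getElem?_cons_zero] at h
          rw [hx]; exact h
        | succ q =>
          rw [List.getElem?_cons_succ] at h
          obtain ⟨c', h1, h2⟩ := hpc q c h
          refine ⟨c', ?_, h2⟩
          simp only [Nat.add_eq_zero_iff, one_ne_zero, and_false, if_false, Nat.add_sub_cancel]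
          rw [List.getElem?_cons_succ]; exact h1

private lemma BI_mem (q : Con (arX ar)) (c : Con ar) (h : bwC q = some c) (v : ℕ)
    (hv : v ∈ vsC c) : v ∈ vsC q := by
  have key : ∀ (s : Sy ar) (y : Fin (arS s) → ℕ), bwS s y = some c → v ∈ List.ofFn y := by
    intro s y hs
    cases s with
    | inr b => simp [bwS] at hs
    | inl s =>
      simp only [bwS, Option.some.injEq] at hs
      subst hs
      simp only [vsC, List.mem_ofFn] at hv ⊢
      obtain ⟨j, hj⟩ := hv
      exact ⟨_, hj⟩
  exact key _ _ h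

private lemma BI_gir (F : List (Con (arX ar))) :
    (incG (vsC (ar := arX ar) (V := ℕ)) F).egirth ≤
      (incG (vsC (ar := ar) (V := ℕ)) (F.filterMap bwC)).egirth := by
  obtain ⟨p, hp, hpc⟩ := BI_pos bwC F
  apply SimpleGraph.IsContained.egirth_le
  have key : ∀ x y : ℕ ⊕ ℕ, (∃ q v c, x = Sum.inl q ∧ y = Sum.inr v ∧
      (F.filterMap bwC)[q]? = some c ∧ v ∈ vsC (ar := ar) (V := ℕ) c) →
      ∃ q v c, Sum.map p id x = Sum.inl q ∧ Sum.map p id y = (Sum.inr v : ℕ ⊕ ℕ) ∧
      F[q]? = some c ∧ v ∈ vsC (ar := arX ar) (V := ℕ) c := by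
    rintro x y ⟨q, v, c, rfl, rfl, h1, h2⟩
    obtain ⟨c', h3, h4⟩ := hpc q c h1
    exact ⟨p q, v, c', rfl, rfl, h3, BI_mem c' c h4 v h2⟩
  have hinj : Function.Injective (Sum.map p (id : ℕ → ℕ)) :=
    Function.Injective.sumMap hp.injective Function.injective_id
  refine ⟨⟨⟨Sum.map p id, ?_⟩, hinj⟩⟩
  intro x y hxy
  rw [incG, SimpleGraph.fromRel_adj] at hxy ⊢
  obtain ⟨hne, h | h⟩ := hxy
  · exact ⟨fun h' => hne (hinj h'), Or.inl (key _ _ h)⟩
  · exact ⟨fun h' => hne (hinj h'), Or.inr (key _ _ h)⟩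

theorem p_BI : S_BI := by
  intro g d ar φ k K gg c s ε F hd hk hc hε0 hε1 hs
  refine ⟨?_, ?_, ?_, ?_, ?_⟩
  · rintro ⟨a, -, ha⟩
    refine ⟨a, ?_⟩
    rw [BI_val] at ha
    have h1 : ⌈c * (F.length : ℚ)⌉ ≤ ((valC φ a (F.filterMap bwC) + ones F : ℕ) : ℤ) := by
      rw [Int.ceil_le]
      exact_mod_cast ha
    have h2 : (⌈c * (F.length : ℚ)⌉).toNat ≤ valC φ a (F.filterMap bwC) + ones F := by
      rw [Int.toNat_le]; exact h1
    show (⌈c * (F.length : ℚ)⌉).toNat - ones F ≤ valC φ a (F.filterMap bwC)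
    omega
  · intro h a
    have h1 := h a
    rw [BI_val] at h1
    show ((valC φ a (F.filterMap bwC) : ℕ) : ℚ) <
      (1 - ε) * (((⌈c * (F.length : ℚ)⌉).toNat - ones F : ℕ) : ℚ)
    set v := valC φ a (F.filterMap bwC) with hv
    set o := ones F with ho
    have hL : (0 : ℚ) ≤ F.length := by positivity
    have hce : c * (F.length : ℚ) ≤ (((⌈c * (F.length : ℚ)⌉).toNat : ℕ) : ℚ) := by
      have e1 : c * (F.length : ℚ) ≤ (⌈c * (F.length : ℚ)⌉ : ℚ) := Int.le_ceil _
      have e2 : (⌈c * (F.length : ℚ)⌉ : ℤ) ≤ ((⌈c * (F.length : ℚ)⌉).toNat : ℤ) :=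
        Int.self_le_toNat _
      have e3 : ((⌈c * (F.length : ℚ)⌉ : ℤ) : ℚ) ≤ (((⌈c * (F.length : ℚ)⌉).toNat : ℤ) : ℚ) := by
        exact_mod_cast e2
      have e4 : ((((⌈c * (F.length : ℚ)⌉).toNat : ℤ)) : ℚ) =
        (((⌈c * (F.length : ℚ)⌉).toNat : ℕ) : ℚ) := by norm_cast
      linarith
    set t := (⌈c * (F.length : ℚ)⌉).toNat with ht
    have hvo : ((v + o : ℕ) : ℚ) < (1 - ε) * (t : ℚ) := by
      calc ((v + o : ℕ) : ℚ) < s * F.length := h1
        _ ≤ (1 - ε) * c * F.length := mul_le_mul_of_nonneg_right hs hL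
        _ = (1 - ε) * (c * F.length) := by ring
        _ ≤ (1 - ε) * t := mul_le_mul_of_nonneg_left hce (by linarith)
    have htnn : (0 : ℚ) ≤ t := by positivity
    have hle : o ≤ t := by
      have : ((v + o : ℕ) : ℚ) < t := by nlinarith
      have : v + o < t := by exact_mod_cast this
      omega
    rw [Nat.cast_sub hle]
    push_cast at hvo
    have ho0 : (0 : ℚ) ≤ o := by positivity
    nlinarith
  · exact List.length_filterMap_le _ _
  · intro h v
    exact (BI_occ k hk F v).trans (Nat.mul_le_mul_left _ (h v))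
  · intro h
    exact lt_of_lt_of_le h (BI_gir F)

end Pool.Agent.Lib.MP_87d05f_lc.DG
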