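import Pool.Agent.Lib.MP_87d05f_lc.DG.Stm

set_option autoImplicit false

/-!
# Piece BP: the backward reduction is computed in polynomial time
-/

namespace Pool.Agent.Lib.MP_87d05f_lc.DG

open Pool.Agent.Lib.MP_87d05f_lc Pool.Agent.Lib.MP_87d05f_lc.HG Pool.Agent.Lib.MP_87d05f_lc.TH
open Pool.Agent.Lib.MP_87d05f_lc.SP Pool.Agent.PolyTime

variable {g : ℕ} {ar : Fin g → ℕ}

/-- the entry of a symbol -/
def BP_row : Sy ar → ℕ × Option (List Bool × List ℕ)
  | Sum.inl s => (0, some (Nat.bits (s.1 : ℕ), List.ofFn (fun j => (s.2.2 j : ℕ))))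
  | Sum.inr b => (b.toNat, none)

/-- the table -/
noncomputable def BP_T (ar : Fin g → ℕ) : List (List Bool × (ℕ × Option (List Bool × List ℕ))) :=
  (List.finRange (nS ar)).map (fun s : Fin (nS ar) => (Nat.bits (s : ℕ), BP_row ((eS ar).symm s)))

theorem BP_lookup {α β γ : Type} [DecidableEq β] (k : α → β) (hk : Function.Injective k)
    (v : α → γ) (l : List α) (s : α) (hs : s ∈ l) :
    (l.map (fun a => (k a, v a))).lookup (k s) = some (v s) := by
  induction l with
  | nil => simp at hs
  | cons a l ih =>
    rw [List.map_cons, List.lookup_cons]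
    by_cases h : s = a
    · subst h
      simp
    · have h1 : (k s == k a) = false := by
        rw [beq_eq_false_iff_ne]
        exact fun h2 => h (hk h2)
      rw [h1]
      rcases List.mem_cons.1 hs with h2 | h2
      · exact absurd h2 h
      · exact ih h2

/-- the search in the table -/
noncomputable def BP_look (ar : Fin g → ℕ) (k : List Bool) :
    Option (ℕ × Option (List Bool × List ℕ)) :=
  @List.lookup (List Bool) (ℕ × Option (List Bool × List ℕ)) instBEqOfDecidableEq k (BP_T ar)

theorem BP_T_lookup (s : Fin (nS ar)) :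
    BP_look ar (Nat.bits (s : ℕ)) = some (BP_row ((eS ar).symm s)) :=
  BP_lookup (fun s : Fin (nS ar) => Nat.bits (s : ℕ))
    (fun _ _ h => Fin.ext (bits_injective h)) (fun s => BP_row ((eS ar).symm s)) _ s
    (List.mem_finRange s)

/-- the payoff of a row -/
def BP_one (o : Option (ℕ × Option (List Bool × List ℕ))) : ℕ :=
  Option.casesOn o 0 (fun r => r.1)

/-- the new words of a row -/
def BP_out (o : Option (ℕ × Option (List Bool × List ℕ))) (y : List (List Bool)) :
    Option (List (List Bool)) :=
  Option.casesOn o none (fun r => Option.casesOn r.2 none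
    (fun q => some (q.1 :: q.2.map (fun j => y.getD j []))))

/-- the program -/
noncomputable def BP_f (ar : Fin g → ℕ) (p q : ℕ) (x : List Bool) : List Bool :=
  encW ([List.replicate (mydiv (p * (parseW x).length + (q - 1)) q -
      ((parseW x).flatMap (fun c => List.replicate
        (BP_one (BP_look ar (c.headD []))) ())).length) true] ::
    (parseW x).filterMap (fun c => BP_out (BP_look ar (c.headD [])) c.tail))

theorem BP_one_ptime {α : Type} [SCode α]
    {o : α → Option (ℕ × Option (List Bool × List ℕ))} (ho : PTime o) :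
    PTime (fun a => BP_one (o a)) := by
  unfold BP_one
  exact PTime.option_casesOn (f := o) (g := fun _ => (0 : ℕ)) (h := fun _ r => r.1) ho
    (PTime.const _) (PTime.fst.comp PTime.snd)

theorem BP_out_ptime {α : Type} [SCode α]
    {o : α → Option (ℕ × Option (List Bool × List ℕ))} {y : α → List (List Bool)}
    (ho : PTime o) (hy : PTime y) : PTime (fun a => BP_out (o a) (y a)) := by
  unfold BP_out
  refine PTime.option_casesOn (f := o) (g := fun _ => (none : Option (List (List Bool))))
    (h := fun a r => Option.casesOn r.2 none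
      (fun q => some (q.1 :: q.2.map (fun j => (y a).getD j [])))) ho (PTime.const _) ?_
  refine PTime.option_casesOn
    (f := fun p : α × (ℕ × Option (List Bool × List ℕ)) => p.2.2)
    (g := fun _ => (none : Option (List (List Bool))))
    (h := fun p q => some (q.1 :: q.2.map (fun j => (y p.1).getD j [])))
    (PTime.snd.comp PTime.snd) (PTime.const _) ?_
  refine PTime.some (PTime.cons (PTime.fst.comp PTime.snd) ?_)
  refine PTime.map
    (l := fun p : (α × (ℕ × Option (List Bool × List ℕ))) × (List Bool × List ℕ) => p.2.2)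
    (f := fun p j => (y p.1.1).getD j []) (PTime.snd.comp PTime.snd) ?_
  exact PTime.getD PTime.snd (hy.comp (PTime.fst.comp (PTime.fst.comp PTime.fst)))
    (PTime.const [])

theorem BP_f_ptime (p q : ℕ) : PTime (BP_f ar p q) := by
  unfold BP_f
  have hlook : ∀ (β : Type) [SCode β] (c : β → List (List Bool)), PTime c →
      PTime (fun b => BP_look ar ((c b).headD [])) := by
    intro β _ c hc
    exact PTime.lookup (l := fun _ => BP_T ar) (PTime.headD hc (PTime.const []))
      (PTime.const (BP_T ar))
  refine encW_ptime (PTime.cons (PTime.cons (PTime.replicate (PTime.sub ?_ ?_)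
    (PTime.const true)) (PTime.const [])) ?_)
  · exact mydiv_ptime (PTime.add (PTime.mul (PTime.const p) (PTime.length parseW_ptime))
      (PTime.const (q - 1))) (PTime.const q)
  · refine PTime.length (PTime.flatMap (f := fun (_ : List Bool) (c : List (List Bool)) =>
      List.replicate (BP_one (BP_look ar (c.headD []))) ()) parseW_ptime ?_)
    exact PTime.replicate (BP_one_ptime (hlook _ _ PTime.snd)) (PTime.const ())
  · refine PTime.filterMap (f := fun (_ : List Bool) (c : List (List Bool)) =>
      BP_out (BP_look ar (c.headD [])) c.tail) parseW_ptime ?_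
    exact BP_out_ptime (hlook _ _ PTime.snd) (PTime.tail PTime.snd)

theorem BP_out_row (s : Sy ar) (y : Fin (arS s) → ℕ) :
    BP_out (some (BP_row s)) ((List.ofFn y).map Nat.bits) = (bwS s y).map wordC := by
  rcases s with s | b
  · have h : (List.ofFn (fun j => (s.2.2 j : ℕ))).map
        (fun j => ((List.ofFn y).map Nat.bits).getD j []) =
        (List.ofFn (fun j => y (s.2.2 j))).map Nat.bits := by
      rw [List.map_ofFn (f := fun j => y (s.2.2 j)), List.map_ofFn (f := fun j => (s.2.2 j : ℕ))]
      refine congrArg List.ofFn (funext fun j => ?_)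
      have h1 : ((s.2.2 j : ℕ)) < ((List.ofFn y).map Nat.bits).length := by
        rw [List.length_map, List.length_ofFn]
        exact (s.2.2 j).2
      change ((List.ofFn y).map Nat.bits).getD (s.2.2 j : ℕ) [] = Nat.bits (y (s.2.2 j))
      rw [List.getD_eq_getElem _ _ h1, List.getElem_map, List.getElem_ofFn]
      rfl
    change some (Nat.bits (s.1 : ℕ) :: (List.ofFn (fun j => (s.2.2 j : ℕ))).map
        (fun j => ((List.ofFn y).map Nat.bits).getD j [])) =
      some (Nat.bits (s.1 : ℕ) :: (List.ofFn (fun j => y (s.2.2 j))).map Nat.bits)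
    rw [h]
  · rfl

theorem BP_ceil (a q : ℕ) (hq : 0 < q) :
    ⌈((a : ℕ) : ℚ) / (q : ℚ)⌉₊ = (a + (q - 1)) / q := by
  refine eq_of_forall_ge_iff fun n => ?_
  have hq' : (0 : ℚ) < (q : ℚ) := by exact_mod_cast hq
  rw [Nat.ceil_le, div_le_iff₀ hq', ← Nat.lt_succ_iff (m := (a + (q - 1)) / q),
    Nat.div_lt_iff_lt_mul hq, Nat.succ_mul]
  constructor
  · intro h
    have h1 : a ≤ n * q := by exact_mod_cast h
    omega
  · intro h
    have h1 : a ≤ n * q := by omega
    exact_mod_cast h1

theorem BP_toNat (c : ℚ) (hc : 0 < c) (m : ℕ) :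
    (⌈c * (m : ℚ)⌉).toNat = mydiv (c.num.toNat * m + (c.den - 1)) c.den := by
  have hq : 0 < c.den := c.pos
  rw [mydiv_eq hq, ← BP_ceil _ _ hq, Int.ceil_toNat]
  congr 1
  have h1 : ((c.num.toNat : ℕ) : ℤ) = c.num := Int.toNat_of_nonneg (Rat.num_nonneg.2 hc.le)
  have h2 : ((c.num.toNat : ℕ) : ℚ) = ((c.num : ℤ) : ℚ) := by exact_mod_cast h1
  have h3 : c = ((c.num : ℤ) : ℚ) / (c.den : ℚ) := (Rat.num_div_den c).symm
  rw [Nat.cast_mul, h2]
  conv_lhs => rw [h3]
  ring

theorem p_BP : S_BP := by
  intro g ar c hc
  refine ⟨BP_f ar c.num.toNat c.den, BP_f_ptime _ _, fun F => ?_⟩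
  have hp : parseW (codeC F) = F.map wordC := by rw [codeC_eq, parseW_encW]
  have hl : ∀ q : Con (arX ar), BP_look ar ((wordC q).headD []) =
      some (BP_row ((eS ar).symm q.1)) := fun q => BP_T_lookup q.1
  have h1 : ((F.map wordC).flatMap (fun c => List.replicate
      (BP_one (BP_look ar (c.headD []))) ())).length = ones F := by
    rw [List.length_flatMap, List.map_map]
    unfold ones
    refine congrArg List.sum (List.map_congr_left fun q _ => ?_)
    change (List.replicate (BP_one (BP_look ar ((wordC q).headD []))) ()).length =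
      oneS ((eS ar).symm q.1)
    rw [List.length_replicate, hl q]
    rcases (eS ar).symm q.1 with s | b
    · rfl
    · rfl
  have h2 : (F.map wordC).filterMap
      (fun c => BP_out (BP_look ar (c.headD [])) c.tail) =
      (F.filterMap bwC).map wordC := by
    rw [List.filterMap_map, List.map_filterMap]
    refine List.filterMap_congr fun q _ => ?_
    change BP_out (BP_look ar ((wordC q).headD [])) ((List.ofFn q.2).map Nat.bits) =
      Option.map wordC (bwS ((eS ar).symm q.1) q.2)
    rw [hl q]
    exact BP_out_row ((eS ar).symm q.1) q.2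
  unfold BP_f enM bwI
  rw [hp, h1, h2, List.length_map, BP_toNat c hc]

end Pool.Agent.Lib.MP_87d05f_lc.DG
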