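import Pool.Agent.Lib.MP_87d05f_lc.DG.Stm

set_option autoImplicit false

/-!
# Piece BT: the backward reduction, machines
-/

namespace Pool.Agent.Lib.MP_87d05f_lc.DG

open Pool.Agent.Lib.MP_87d05f_lc Pool.Agent.Lib.MP_87d05f_lc.HG Pool.Agent.Lib.MP_87d05f_lc.TH
open Pool.Agent.Lib.MP_87d05f_lc.SP Pool.Agent.PolyTime

/-- [DG BT] the backward reduction: machines -/
theorem p_BT (h1 : S_BI) (h2 : S_BP) : S_BT := by
  intro g d ar φ k K gg b c s ε hd hk hc hε hε1 hs hb hsep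
  obtain ⟨f, hf, hfe⟩ := h2 g ar c hc
  have hh : PTime (fun x : List Bool => mydiv (parseW x).length b) :=
    mydiv_ptime (PTime.length parseW_ptime) (PTime.const b)
  refine transfer hf hh (fun F _ => length_le_code F) (fun F hF => ?_) hsep
  have hx : (parseW (codeC F)).length = F.length := by
    rw [codeC_eq, parseW_encW, List.length_map]
  obtain ⟨hY, hN, hlen, hocc, hgir⟩ := h1 g d ar φ k K gg c s ε F hd hk hc hε hε1 hs
  refine ⟨bwI c F, ⟨hocc hF.1.2, hgir hF.2.2⟩, (hfe F).symm, hY, hN, ?_, ?_⟩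
  · rw [hx, mydiv_eq hb]
    exact Nat.div_le_div_right hlen
  · rw [hx, mydiv_eq hb]

end Pool.Agent.Lib.MP_87d05f_lc.DG
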