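import Mathlib
import Pool.Agent.Lib.MP_87d05f_lc.DG.Stm

set_option autoImplicit false

/-!
# The local version (helper60)
-/

namespace Pool.Agent.Lib.MP_87d05f_lc.DG

open Pool.Agent.Lib.MP_87d05f_lc Pool.Agent.Lib.MP_87d05f_lc.HG Pool.Agent.Lib.MP_87d05f_lc.TH

theorem p_DG (h : TH.S_TH) (h1 : S_FT) (h2 : S_BT) : S_DG := by
  intro g d ar φ hd hyp
  obtain ⟨ε, hε0, hε1, b, hb, hn⟩ := hyp
  have hk : ∀ i, ar i ≤ ∑ i, ar i := fun i =>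
    Finset.single_le_sum (f := ar) (fun _ _ => Nat.zero_le _) (Finset.mem_univ i)
  obtain ⟨k, hkdef⟩ : ∃ k, k = ∑ i, ar i := ⟨_, rfl⟩
  rw [← hkdef] at hk
  have hdk : (0 : ℚ) < (d : ℚ) ^ k := by
    have : (0 : ℚ) < d := by exact_mod_cast hd
    positivity
  obtain ⟨c₀, hc₀⟩ : ∃ c₀ : ℚ, c₀ = 1 / (d : ℚ) ^ k := ⟨_, rfl⟩
  have hc₀0 : 0 < c₀ := by rw [hc₀]; positivity
  have hs₀ : (1 - ε) / (d : ℚ) ^ k = (1 - ε) * c₀ := by rw [hc₀]; ring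
  have hhard := (h (nS ar) d (arX ar) (phX φ) (R1 d (arX ar)) c₀ ((1 - ε) * c₀) hd).1
    (ε * c₀ / 4) (by positivity) ⟨b, hb, fun hs => hn
      (h1 g d ar φ k ε b hd hk hε0 hε1 hb (by rw [hs₀, ← hc₀]; exact hs))⟩
  obtain ⟨K, hK⟩ := hhard
  refine ⟨ε / 2, by linarith, by linarith, k * K, fun gg => ?_⟩
  obtain ⟨b', hb', hn'⟩ := hK gg
  refine ⟨b', hb', fun hs => hn' ?_⟩
  have hc : 0 < c₀ - ε * c₀ / 4 := by nlinarith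
  refine h2 g d ar φ k K gg b' (c₀ - ε * c₀ / 4) ((1 - ε) * c₀ + ε * c₀ / 4) (ε / 2) hd hk hc
    (by linarith) (by linarith) ?_ hb' hs
  have h3 : (1 - ε / 2) * (c₀ - ε * c₀ / 4) = (1 - ε) * c₀ + ε * c₀ / 4 + ε ^ 2 * c₀ / 8 := by
    ring
  rw [h3]
  have : 0 ≤ ε ^ 2 * c₀ / 8 := by positivity
  linarith

end Pool.Agent.Lib.MP_87d05f_lc.DG
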