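import Mathlib
import Pool.Agent.Lib.MP_87d05f_lc.DG.Stm
import Pool.Agent.Lib.MP_87d05f_lc.SP.P.nth

set_option autoImplicit false

/-!
# The forward reduction: semantics (helper60)
-/

namespace Pool.Agent.Lib.MP_87d05f_lc.DG

open Pool.Agent.Lib.MP_87d05f_lc Pool.Agent.Lib.MP_87d05f_lc.HG Pool.Agent.Lib.MP_87d05f_lc.TH
open Pool.Agent.Lib.MP_87d05f_lc.SP Pool.Agent.PolyTime

section

variable {g d : ℕ} {ar : Fin g → ℕ}

theorem FI_append (φ : (i : Fin g) → (Fin (ar i) → Fin d) → ℕ) (a : ℕ → Fin d)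
    (A B : List (Con ar)) : valV φ a (A ++ B) = valV φ a A + valV φ a B := by
  unfold valV
  rw [List.map_append, List.sum_append]

theorem FI_useful (φ : (i : Fin g) → (Fin (ar i) → Fin d) → ℕ) (F : List (Con ar)) :
    ∀ c ∈ usC φ F, c ∈ F ∧ ∃ a : ℕ → Fin d, 1 ≤ φ c.1 (fun j => a (c.2 j)) := by
  classical
  intro c hc
  unfold usC at hc
  rw [List.mem_filter] at hc
  refine ⟨hc.1, ?_⟩
  have h2 := hc.2
  rw [decide_eq_true_iff] at h2
  exact h2

theorem FI_main (h : S_FW) (φ : (i : Fin g) → (Fin (ar i) → Fin d) → ℕ) (k : ℕ) (ε : ℚ)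
    (I : ℕ × List (Con ar)) (hd : 0 < d) (hk : ∀ i, ar i ≤ k) (hε1 : ε < 1) :
    fwI φ k I ≠ [] ∧ Prp (fwI φ k I) ∧ nvC (fwI φ k I) ≤ nvC I.2 ∧
    (YM φ I → YT (phX φ) (R1 d (arX ar)) (1 / (d : ℚ) ^ k) (fwI φ k I)) ∧
    (NM φ ε I → NT (phX φ) ((1 - ε) / (d : ℚ) ^ k) (fwI φ k I)) := by
  obtain ⟨t, F⟩ := I
  obtain ⟨hfw, hcst⟩ := h g d ar φ
  have hdk : 0 < d ^ k := by positivity
  have hdkQ : (0 : ℚ) < (d : ℚ) ^ k := by
    have : (0 : ℚ) < d := by exact_mod_cast hd
    positivity
  have hnv : ∀ G : List (Con (arX ar)), (∀ q ∈ G, ∀ v ∈ vsC q, ∃ c ∈ F, v ∈ vsC c) →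
      nvC G ≤ nvC F := by
    intro G hG
    unfold nvC
    refine Finset.card_le_card fun v hv => ?_
    rw [List.mem_toFinset, List.mem_flatMap] at hv ⊢
    obtain ⟨q, hq, hv⟩ := hv
    exact hG q hq v hv
  by_cases ht : t = 0
  · subst ht
    have hfi : fwI φ k (0, F) = [cst true] := by
      unfold fwI
      simp
    rw [hfi]
    have hval : ∀ a : ℕ → Fin d, valV (phX φ) a [cst (ar := ar) true] = 1 := by
      intro a
      unfold valV
      rw [List.map_singleton, List.sum_singleton]
      exact (hcst true).2 a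
    refine ⟨List.cons_ne_nil _ _, ?_, ?_, ?_, ?_⟩
    · intro c hc
      rw [List.mem_singleton] at hc
      rw [hc, (hcst true).1]
      exact List.nodup_nil
    · refine hnv _ fun q hq v hv => ?_
      rw [List.mem_singleton] at hq
      rw [hq, (hcst true).1] at hv
      simp at hv
    · intro _
      refine ⟨fun _ => ⟨0, hd⟩, fun _ _ => rfl, ?_⟩
      rw [hval, List.length_singleton, Nat.cast_one, mul_one, div_le_one hdkQ]
      exact_mod_cast hdk
    · intro hN
      have h1 := hN (fun _ => ⟨0, hd⟩)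
      simp only [Nat.cast_zero, mul_zero] at h1
      have h2 : (0 : ℚ) ≤ ((valC φ (fun _ => (⟨0, hd⟩ : Fin d)) F : ℕ) : ℚ) := by positivity
      linarith
  · obtain ⟨U, hU⟩ : ∃ U, U = usC φ F := ⟨_, rfl⟩
    obtain ⟨n, hn⟩ : ∃ n, n = t * d ^ k - U.length := ⟨_, rfl⟩
    have hfi : fwI φ k (t, F) = U.map fwC ++ List.replicate n (cst false) := by
      unfold fwI
      rw [if_neg ht, hn, hU]
    rw [hfi]
    have hval : ∀ a : ℕ → Fin d, valV (phX φ) a (U.map fwC ++
        List.replicate n (cst (ar := ar) false)) = valC φ a F := by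
      intro a
      rw [FI_append, ← nth_val φ F a, ← hU]
      have h1 : valV (phX φ) a (U.map fwC) = valC φ a U := by
        unfold valV valC
        rw [List.map_map]
        refine congrArg List.sum (List.map_congr_left fun c _ => ?_)
        exact (hfw c).2.2 a
      have h2 : valV (phX φ) a (List.replicate n (cst (ar := ar) false)) = 0 := by
        unfold valV
        rw [List.map_replicate, List.sum_replicate]
        have h3 := (hcst false).2 a
        rw [h3]
        simp
      rw [h1, h2, Nat.add_zero]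
    have hlen : (U.map fwC ++ List.replicate n (cst (ar := ar) false)).length =
        U.length + n := by
      rw [List.length_append, List.length_map, List.length_replicate]
    have htd : 0 < t * d ^ k := Nat.mul_pos (Nat.pos_of_ne_zero ht) hdk
    have huse := FI_useful φ F
    rw [← hU] at huse
    obtain ⟨a₀, ha₀⟩ := nth_average φ hd k hk U (fun c hc => (huse c hc).2)
    have ha₀' : U.length ≤ d ^ k * valC φ a₀ F := by
      rw [← nth_val φ F a₀, ← hU]
      exact ha₀
    refine ⟨?_, ?_, ?_, ?_, ?_⟩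
    · intro h0
      rw [h0, List.length_nil] at hlen
      omega
    · intro c hc
      rcases List.mem_append.1 hc with hc | hc
      · obtain ⟨c', -, rfl⟩ := List.mem_map.1 hc
        exact (hfw c').1
      · rw [(List.mem_replicate.1 hc).2, (hcst false).1]
        exact List.nodup_nil
    · refine hnv _ fun q hq v hv => ?_
      rcases List.mem_append.1 hq with hq | hq
      · obtain ⟨c', hc', rfl⟩ := List.mem_map.1 hq
        exact ⟨c', (huse c' hc').1, ((hfw c').2.1 v).1 hv⟩
      · rw [(List.mem_replicate.1 hq).2, (hcst false).1] at hv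
        simp at hv
    · rintro ⟨a, ha⟩
      simp only at ha
      by_cases hu : U.length ≤ t * d ^ k
      · refine ⟨a, fun _ _ => rfl, ?_⟩
        have hl : U.length + n = t * d ^ k := by omega
        rw [hval, hlen, hl, one_div, inv_mul_le_iff₀ hdkQ]
        have h1 : t * d ^ k ≤ d ^ k * valC φ a F := by
          rw [Nat.mul_comm]
          exact Nat.mul_le_mul_left _ ha
        exact_mod_cast h1
      · refine ⟨a₀, fun _ _ => rfl, ?_⟩
        have hl : U.length + n = U.length := by omega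
        rw [hval, hlen, hl, one_div, inv_mul_le_iff₀ hdkQ]
        exact_mod_cast ha₀'
    · intro hN a
      have hN' : ∀ a : ℕ → Fin d, ((valC φ a F : ℕ) : ℚ) < (1 - ε) * (t : ℚ) := hN
      have h1 : (U.length : ℚ) ≤ (d : ℚ) ^ k * ((valC φ a₀ F : ℕ) : ℚ) := by
        exact_mod_cast ha₀'
      have h2 := hN' a₀
      have hε0t : (1 - ε) * (t : ℚ) ≤ (t : ℚ) ∨ (t : ℚ) < (1 - ε) * (t : ℚ) := le_or_gt _ _
      by_cases hu : U.length ≤ t * d ^ k
      · have hl : U.length + n = t * d ^ k := by omega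
        rw [hval, hlen, hl]
        have h3 := hN' a
        push_cast
        have h4 : (1 - ε) / (d : ℚ) ^ k * ((t : ℚ) * (d : ℚ) ^ k) = (1 - ε) * t := by
          field_simp
        rw [h4]
        exact h3
      · have hl : U.length + n = U.length := by omega
        rw [hval, hlen, hl]
        have h3 := hN' a
        have h4 : (t : ℚ) * (d : ℚ) ^ k ≤ (U.length : ℚ) := by
          have : t * d ^ k ≤ U.length := by omega
          exact_mod_cast this
        have h5 : (0 : ℚ) ≤ (1 - ε) / (d : ℚ) ^ k := by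
          have : (0 : ℚ) ≤ 1 - ε := by linarith
          positivity
        calc ((valC φ a F : ℕ) : ℚ) < (1 - ε) * t := h3
          _ = (1 - ε) / (d : ℚ) ^ k * ((t : ℚ) * (d : ℚ) ^ k) := by field_simp
          _ ≤ (1 - ε) / (d : ℚ) ^ k * (U.length : ℚ) := mul_le_mul_of_nonneg_left h4 h5

end

theorem p_FI (h : S_FW) : S_FI := by
  intro g d ar φ k ε I hd hk _ hε1
  exact FI_main h φ k ε I hd hk hε1

end Pool.Agent.Lib.MP_87d05f_lc.DG
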