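import Pool.Agent.Lib.MP_87d05f_lc.DG.Stm

set_option autoImplicit false

/-!
# Piece FP: the forward reduction is computed in polynomial time (helper29)
-/

namespace Pool.Agent.Lib.MP_87d05f_lc.DG

open Pool.Agent.Lib.MP_87d05f_lc Pool.Agent.Lib.MP_87d05f_lc.HG Pool.Agent.Lib.MP_87d05f_lc.TH
open Pool.Agent.Lib.MP_87d05f_lc.SP Pool.Agent.PolyTime

/-! ### Programs -/

/-- a table: symbol, number of different variables, positions of the variables; the new word -/
abbrev FP_Tab : Type := List ((List Bool × (ℕ × List ℕ)) × List Bool)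

/-- the key of a constraint (in words) -/
def FP_key (c : List (List Bool)) : List Bool × (ℕ × List ℕ) :=
  (c.headD [], ((ded c.tail).length, c.tail.map (lkv (ded c.tail).zipIdx)))

/-- the new constraint (in words) -/
def FP_w (tb : FP_Tab) (c : List (List Bool)) : List (List Bool) :=
  (Option.casesOn (tb.find? (fun e => decide (e.1 = FP_key c))) [] (fun e => e.2)) :: ded c.tail

/-- the program -/
def FP_f (tab : TabP) (tb : FP_Tab) (D : ℕ) (w0 w1 : List (List Bool)) (x : List Bool) :
    List (List (List Bool)) :=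
  bif decide (thI x = 0) then [w1] else
    (usI tab x).map (FP_w tb) ++ List.replicate (thI x * D - (usI tab x).length) w0

theorem FP_lkv_ptime {α : Type} [SCode α] {y : α → List (List Bool × ℕ)} {w : α → List Bool}
    (hy : PTime y) (hw : PTime w) : PTime (fun a => lkv (y a) (w a)) := by
  unfold lkv
  refine PTime.option_casesOn
    (f := fun a => (y a).find? (fun e => decide (e.1 = w a)))
    (g := fun _ => (0 : ℕ))
    (h := fun _ (e : List Bool × ℕ) => e.2) ?_ (PTime.const _)
    (PTime.snd.comp PTime.snd)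
  refine PTime.find? (l := y) (p := fun a (e : List Bool × ℕ) => decide (e.1 = w a)) hy ?_
  exact PTime.eq (PTime.fst.comp PTime.snd) (hw.comp PTime.fst)

theorem FP_key_ptime {α : Type} [SCode α] {c : α → List (List Bool)} (hc : PTime c) :
    PTime (fun a => FP_key (c a)) := by
  unfold FP_key
  have hd : PTime (fun a => ded (c a).tail) := ded_ptime (PTime.tail hc)
  refine (PTime.headD hc (PTime.const [])).pair ((PTime.length hd).pair ?_)
  exact PTime.map (l := fun a => (c a).tail) (f := fun a w => lkv (ded (c a).tail).zipIdx w)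
    (PTime.tail hc) (FP_lkv_ptime ((PTime.zipIdx hd).comp PTime.fst) PTime.snd)

theorem FP_w_ptime (tb : FP_Tab) {α : Type} [SCode α] {c : α → List (List Bool)} (hc : PTime c) :
    PTime (fun a => FP_w tb (c a)) := by
  unfold FP_w
  refine PTime.cons ?_ (ded_ptime (PTime.tail hc))
  refine PTime.option_casesOn
    (f := fun a => tb.find? (fun e => decide (e.1 = FP_key (c a))))
    (g := fun _ => ([] : List Bool))
    (h := fun _ (e : (List Bool × (ℕ × List ℕ)) × List Bool) => e.2) ?_ (PTime.const _)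
    (PTime.snd.comp PTime.snd)
  refine PTime.find? (l := fun _ => tb)
    (p := fun a (e : (List Bool × (ℕ × List ℕ)) × List Bool) => decide (e.1 = FP_key (c a)))
    (PTime.const tb) ?_
  exact PTime.eq (PTime.fst.comp PTime.snd) ((FP_key_ptime hc).comp PTime.fst)

theorem FP_f_ptime (tab : TabP) (tb : FP_Tab) (D : ℕ) (w0 w1 : List (List Bool)) :
    PTime (FP_f tab tb D w0 w1) := by
  unfold FP_f
  refine PTime.cond (PTime.isZero thI_ptime) (PTime.const _) ?_
  refine PTime.append ?_ ?_
  · exact PTime.map (l := fun x => usI tab x) (f := fun _ c => FP_w tb c) (usI_ptime tab)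
      (FP_w_ptime tb PTime.snd)
  · exact PTime.replicate (PTime.sub (PTime.mul thI_ptime (PTime.const D))
      (PTime.length (usI_ptime tab))) (PTime.const _)

/-! ### Words -/

theorem FP_bits_inj {m n : ℕ} (h : Nat.bits m = Nat.bits n) : m = n := by
  have h2 := congrArg unbits h
  rwa [unbits_bits, unbits_bits] at h2

theorem FP_ded_map (l : List ℕ) : ded (l.map Nat.bits) = (ded l).map Nat.bits := by
  induction l with
  | nil => rfl
  | cons a l ih =>
    rw [List.map_cons, ded_cons, ded_cons, ih]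
    have h : Nat.bits a ∈ (ded l).map Nat.bits ↔ a ∈ ded l := by
      rw [List.mem_map]
      constructor
      · rintro ⟨b, hb, hab⟩
        rwa [← FP_bits_inj hab]
      · intro hb
        exact ⟨a, hb, rfl⟩
    by_cases ha : a ∈ ded l
    · simp only [ha, h.2 ha, decide_true, cond_true]
    · have h' : ¬ Nat.bits a ∈ (ded l).map Nat.bits := fun h' => ha (h.1 h')
      simp only [ha, h', decide_false, cond_false, List.map_cons]

theorem FP_lkv (L : List ℕ) (n v : ℕ) (hv : v ∈ L) :
    lkv ((L.map Nat.bits).zipIdx n) (Nat.bits v) = n + L.idxOf v := by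
  induction L generalizing n with
  | nil => exact absurd hv (by simp)
  | cons a L ih =>
    rw [List.map_cons, List.zipIdx_cons]
    unfold lkv
    by_cases h : a = v
    · subst h
      rw [List.find?_cons_of_pos (by simp)]
      simp
    · have h1 : ¬ Nat.bits a = Nat.bits v := fun h' => h (FP_bits_inj h')
      rw [List.find?_cons_of_neg (by simpa using h1)]
      have hv' : v ∈ L := by
        rcases List.mem_cons.1 hv with h2 | h2
        · exact absurd h2.symm h
        · exact h2
      have h3 := ih (n + 1) hv'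
      unfold lkv at h3
      rw [h3, List.idxOf_cons_ne _ h]
      omega

theorem FP_ofFn (L : List ℕ) (n : ℕ) (h : n = L.length) :
    List.ofFn (fun j : Fin n => L.getD (j : ℕ) 0) = L := by
  subst h
  apply List.ext_getElem
  · rw [List.length_ofFn]
  · intro i h1 h2
    rw [List.getElem_ofFn]
    simp [h2]

variable {g d : ℕ} {ar : Fin g → ℕ}

/-- the word of a constraint, by the symbol -/
theorem FP_word (s' s : Sy ar) (h : s' = s) (L : List ℕ) (hL : arS s = L.length) :
    List.ofFn (fun j : Fin (arS s') => L.getD (j : ℕ) 0) = L := by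
  subst h
  exact FP_ofFn L _ hL

theorem FP_cst (b : Bool) : wordC (cst (ar := ar) b) = [Nat.bits (eS ar (Sum.inr b) : ℕ)] := by
  have h : ∀ (s' s : Sy ar), s' = s → arS s = 0 →
      List.ofFn (fun _ : Fin (arS s') => 0) = ([] : List ℕ) := by
    intro s' s hs h0
    subst hs
    rw [← List.length_eq_zero_iff, List.length_ofFn]
    exact h0
  have h1 : List.ofFn (cst (ar := ar) b).2 = ([] : List ℕ) :=
    h ((eS ar).symm (eS ar (Sum.inr b))) (Sum.inr b) ((eS ar).symm_apply_apply _) rfl
  unfold wordC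
  rw [h1]
  rfl

/-- the table -/
noncomputable def FP_tab (ar : Fin g → ℕ) : FP_Tab :=
  (Finset.univ : Finset ((i : Fin g) × (r : Fin (ar i + 1)) × (Fin (ar i) → Fin (r : ℕ)))).toList.map
    (fun s => ((Nat.bits (s.1 : ℕ), ((s.2.1 : ℕ), List.ofFn (fun j => (s.2.2 j : ℕ)))),
      Nat.bits (eS ar (Sum.inl s) : ℕ)))

theorem FP_key_inj (s t : (i : Fin g) × (r : Fin (ar i + 1)) × (Fin (ar i) → Fin (r : ℕ)))
    (h1 : Nat.bits (s.1 : ℕ) = Nat.bits (t.1 : ℕ)) (h2 : (s.2.1 : ℕ) = (t.2.1 : ℕ))
    (h3 : List.ofFn (fun j => (s.2.2 j : ℕ)) = List.ofFn (fun j => (t.2.2 j : ℕ))) : s = t := by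
  obtain ⟨i, r, p⟩ := s
  obtain ⟨i', r', p'⟩ := t
  have h4 : i = i' := Fin.ext (FP_bits_inj h1)
  subst h4
  have h5 : r = r' := Fin.ext h2
  subst h5
  have h6 := List.ofFn_injective h3
  have h7 : p = p' := by
    funext j
    exact Fin.ext (congrFun h6 j)
  rw [h7]

theorem FP_find (s : (i : Fin g) × (r : Fin (ar i + 1)) × (Fin (ar i) → Fin (r : ℕ)))
    (K : List Bool × (ℕ × List ℕ))
    (hK : K = (Nat.bits (s.1 : ℕ), ((s.2.1 : ℕ), List.ofFn (fun j => (s.2.2 j : ℕ))))) :
    (Option.casesOn ((FP_tab ar).find? (fun e => decide (e.1 = K))) [] (fun e => e.2) :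
      List Bool) = Nat.bits (eS ar (Sum.inl s) : ℕ) := by
  rcases hx : (FP_tab ar).find? (fun e => decide (e.1 = K)) with _ | e
  · exfalso
    rw [List.find?_eq_none] at hx
    have hm : ((Nat.bits (s.1 : ℕ), ((s.2.1 : ℕ), List.ofFn (fun j => (s.2.2 j : ℕ)))),
        Nat.bits (eS ar (Sum.inl s) : ℕ)) ∈ FP_tab ar := by
      unfold FP_tab
      rw [List.mem_map]
      exact ⟨s, by simp, rfl⟩
    have := hx _ hm
    simp [hK] at this
  · have h1 := List.find?_some hx
    have h2 := List.mem_of_find?_eq_some hx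
    unfold FP_tab at h2
    rw [List.mem_map] at h2
    obtain ⟨t, -, rfl⟩ := h2
    simp only [decide_eq_true_eq, hK, Prod.mk.injEq] at h1
    have h3 := FP_key_inj t s h1.1 h1.2.1 h1.2.2
    subst h3
    rw [hx]

theorem FP_fwC (c : Con ar) : FP_w (FP_tab ar) (wordC c) = wordC (fwC c) := by
  have ht : (wordC c).tail = (List.ofFn c.2).map Nat.bits := rfl
  have hh : (wordC c).headD [] = Nat.bits (c.1 : ℕ) := rfl
  have hd : ded (wordC c).tail = (ded (List.ofFn c.2)).map Nat.bits := by
    rw [ht, FP_ded_map]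
  have hw : wordC (fwC c) = Nat.bits ((fwC c).1 : ℕ) :: (ded (List.ofFn c.2)).map Nat.bits := by
    unfold wordC
    congr 2
    exact FP_word _ _ ((eS ar).symm_apply_apply _) (ded (List.ofFn c.2)) rfl
  rw [hw]
  unfold FP_w
  rw [hd]
  congr 1
  refine FP_find _ _ ?_
  unfold FP_key
  rw [hd, ht, hh, List.length_map, List.map_map]
  congr 2
  rw [List.map_ofFn]
  congr 1
  funext j
  have hj : c.2 j ∈ ded (List.ofFn c.2) := by
    rw [mem_ded]
    exact List.mem_ofFn.2 ⟨j, rfl⟩
  have h := FP_lkv (ded (List.ofFn c.2)) 0 (c.2 j) hj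
  rw [Nat.zero_add] at h
  exact h

theorem FP_usC (φ : (i : Fin g) → (Fin (ar i) → Fin d) → ℕ)
    {tab : TabP} (htab : ∀ c : Con ar, useful tab (wordC c) = true ↔
      ∃ a : ℕ → Fin d, 1 ≤ φ c.1 (fun j => a (c.2 j))) (F : List (Con ar)) :
    usC φ F = F.filter (fun c => useful tab (wordC c)) := by
  unfold usC
  refine List.filter_congr fun c _ => ?_
  by_cases h : ∃ a : ℕ → Fin d, 0 < φ c.1 (fun j => a (c.2 j))
  · rw [(htab c).2 h]
    simpa using h
  · have h2 : useful tab (wordC c) = false := by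
      rw [Bool.eq_false_iff]
      exact fun h' => h ((htab c).1 h')
    rw [h2]
    simpa using h

/-- [DG FP] -/
theorem p_FP : S_FP := by
  intro g d ar φ k hd
  obtain ⟨W, dc, ec, hW, hec⟩ := exists_bits d hd
  have htab : ∀ c : Con ar, useful (tabP φ dc) (wordC c) = true ↔
      ∃ a : ℕ → Fin d, 1 ≤ φ c.1 (fun j => a (c.2 j)) := fun c => useful_iff φ dc hec c
  refine ⟨FP_f (tabP φ dc) (FP_tab ar) (d ^ k) [Nat.bits (eS ar (Sum.inr false) : ℕ)]
    [Nat.bits (eS ar (Sum.inr true) : ℕ)], FP_f_ptime _ _ _ _ _, fun I => ?_⟩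
  unfold FP_f fwI
  rw [thI_enM, usI_enM, ← FP_usC φ htab]
  by_cases h : I.1 = 0
  · rw [decide_eq_true h, cond_true, if_pos h, List.map_cons, List.map_nil, FP_cst]
  · rw [decide_eq_false h, cond_false, if_neg h, List.map_append, List.map_replicate, FP_cst,
      List.length_map, List.map_map, List.map_map]
    congr 1
    refine List.map_congr_left fun c _ => ?_
    exact FP_fwC c

end Pool.Agent.Lib.MP_87d05f_lc.DG
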