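import Pool.Agent.Lib.MP_87d05f_lc.DG.Stm

set_option autoImplicit false

/-!
# Piece FT: the forward reduction, machines
-/

namespace Pool.Agent.Lib.MP_87d05f_lc.DG

open Pool.Agent.Lib.MP_87d05f_lc Pool.Agent.Lib.MP_87d05f_lc.HG Pool.Agent.Lib.MP_87d05f_lc.TH
open Pool.Agent.Lib.MP_87d05f_lc.SP Pool.Agent.PolyTime

private theorem FT_nvC_enM {g : ℕ} {ar : Fin g → ℕ} (I : ℕ × List (Con ar)) :
    nvC I.2 ≤ (enM I).length := by
  have h1 := nvC_le I.2
  have h2 : enM I = encW [[List.replicate I.1 true]] ++ codeC I.2 := by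
    unfold enM
    rw [codeC_eq]
    exact encW_append [[List.replicate I.1 true]] (I.2.map wordC)
  rw [h2, List.length_append]
  omega

/-- [DG FT] the forward reduction: machines -/
theorem p_FT (h1 : S_FI) (h2 : S_FP) : S_FT := by
  intro g d ar φ k ε b hd hk hε hε1 hb hsep
  obtain ⟨f, hf, hfe⟩ := h2 g d ar φ k hd
  have hhP : PTime (fun x : List Bool =>
      mydiv (ded ((parseW x).tail.flatMap List.tail)).length b) := by
    have h3 : PTime (fun x : List Bool => (parseW x).tail.flatMap List.tail) :=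
      PTime.flatMap (l := fun x : List Bool => (parseW x).tail)
        (f := fun (_ : List Bool) (c : List (List Bool)) => c.tail) (PTime.tail parseW_ptime)
        (PTime.tail PTime.snd)
    exact mydiv_ptime (PTime.length (ded_ptime h3)) (PTime.const b)
  have hhe : ∀ I : ℕ × List (Con ar),
      mydiv (ded ((parseW (enM I)).tail.flatMap List.tail)).length b = nvC I.2 / b := by
    intro I
    rw [enM_parse, List.tail_cons, nvC_eq, mydiv_eq hb]
  refine transfer (encW_ptime hf) hhP (fun I _ => FT_nvC_enM I) (fun I _ => ?_) hsep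
  obtain ⟨hne, hprp, hnv, hY, hN⟩ := h1 g d ar φ k ε I hd hk hε hε1
  refine ⟨fwI φ k I, ⟨hne, hprp⟩, ?_, hY, hN, ?_, ?_⟩
  · rw [codeC_eq, hfe]
  · rw [hhe]
    exact Nat.div_le_div_right hnv
  · rw [hhe]

end Pool.Agent.Lib.MP_87d05f_lc.DG
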