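import Pool.Agent.Lib.MP_87d05f_lc.DG.Stm

set_option autoImplicit false

/-! # [DG FW] the new constraints (helper40) -/

namespace Pool.Agent.Lib.MP_87d05f_lc.DG

open Pool.Agent.Lib.MP_87d05f_lc Pool.Agent.Lib.MP_87d05f_lc.HG Pool.Agent.Lib.MP_87d05f_lc.TH
open Pool.Agent.Lib.MP_87d05f_lc.SP

theorem FW_list {g : ℕ} {ar : Fin g → ℕ} {s' s : Sy ar} (h : s' = s) (L : List ℕ)
    (hL : arS s = L.length) :
    List.ofFn (fun j : Fin (arS s') => L.getD (j : ℕ) 0) = L := by
  subst h
  apply List.ext_getElem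
  · rw [List.length_ofFn, hL]
  · intro i h1 h2
    rw [List.getElem_ofFn]
    simp [List.getD_eq_getElem?_getD, List.getElem?_eq_getElem h2]

theorem FW_ph {g d : ℕ} {ar : Fin g → ℕ} (φ : (i : Fin g) → (Fin (ar i) → Fin d) → ℕ)
    {s' s : Sy ar} (h : s' = s) (F : ℕ → Fin d) :
    phS φ s' (fun j => F (j : ℕ)) = phS φ s (fun j => F (j : ℕ)) := by
  subst h
  rfl

theorem p_FW : S_FW := by
  intro g d ar φ
  refine ⟨?_, ?_⟩
  · intro c
    have h1 : vsC (fwC c) = ded (List.ofFn c.2) := by
      unfold vsC fwC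
      exact FW_list (Equiv.symm_apply_apply (eS ar) _) (ded (List.ofFn c.2)) rfl
    refine ⟨?_, ?_, ?_⟩
    · rw [h1]
      exact nodup_ded _
    · intro v
      rw [h1, mem_ded]
      rfl
    · intro a
      have h2 := FW_ph φ (Equiv.symm_apply_apply (eS ar)
        (Sum.inl ⟨c.1, ⟨(ded (List.ofFn c.2)).length, by
          have h := length_ded_le (List.ofFn c.2)
          rw [List.length_ofFn] at h
          omega⟩,
        fun j => ⟨(ded (List.ofFn c.2)).idxOf (c.2 j), by
          have h : c.2 j ∈ ded (List.ofFn c.2) := by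
            rw [mem_ded]
            exact List.mem_ofFn.2 ⟨j, rfl⟩
          exact List.idxOf_lt_length_of_mem h⟩⟩))
        (fun n => a ((ded (List.ofFn c.2)).getD n 0))
      refine Eq.trans h2 ?_
      show φ c.1 (fun j => a ((ded (List.ofFn c.2)).getD
        ((ded (List.ofFn c.2)).idxOf (c.2 j)) 0)) = φ c.1 (fun j => a (c.2 j))
      congr 1
      funext j
      have h : c.2 j ∈ ded (List.ofFn c.2) := by
        rw [mem_ded]
        exact List.mem_ofFn.2 ⟨j, rfl⟩
      have h3 := List.idxOf_lt_length_of_mem h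
      rw [List.getD_eq_getElem?_getD, List.getElem?_eq_getElem h3, Option.getD_some,
        List.getElem_idxOf]
  · intro b
    refine ⟨?_, ?_⟩
    · have h : ∀ {s' s : Sy ar}, s' = s → arS s = 0 →
          List.ofFn (fun _ : Fin (arS s') => (0 : ℕ)) = [] := by
        intro s' s h hs
        subst h
        apply List.eq_nil_of_length_eq_zero
        rw [List.length_ofFn, hs]
      exact h (Equiv.symm_apply_apply (eS ar) (Sum.inr b)) rfl
    · intro a
      have h2 := FW_ph φ (Equiv.symm_apply_apply (eS ar) (Sum.inr b)) (fun _ => a 0)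
      exact h2

end Pool.Agent.Lib.MP_87d05f_lc.DG
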