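import Mathlib
import Pool.Agent.Lib.MP_87d05f_lc.DG.Stm
import Pool.Agent.Lib.MP_87d05f_lc.SP.Val
import Pool.Agent.Lib.MP_87d05f_lc.SP.P.tab

set_option autoImplicit false

/-!
# Separators from search on a class of instances (helper60)
-/

namespace Pool.Agent.Lib.MP_87d05f_lc.DG

open Pool.Agent.Lib.MP_87d05f_lc Pool.Agent.Lib.MP_87d05f_lc.SP Pool.Agent.PolyTime Turing

variable {d g : ℕ} {ar : Fin g → ℕ}

theorem SF_max (ht : TabS) (φ : (i : Fin g) → (Fin (ar i) → Fin d) → ℕ) {p q b : ℕ}
    (hq : 0 < q) (hpq : p ≤ q) (hb : 0 < b) {μ : List (Con ar) → ℕ}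
    {m : List (List (List Bool)) → ℕ} (hm : PTime m) (hmμ : ∀ F : List (Con ar),
      m (F.map wordC) = μ F) (hμ : ∀ F, μ F ≤ (codeC F).length) {V : List (Con ar) → Prop}
    (hs : GFind (codeC (ar := ar)) V (goodMax φ ((p : ℚ) / (q : ℕ))) μ b) :
    GSep (enM (ar := ar)) (fun I => V I.2) (YM φ) (NM φ ((p : ℚ) / (q : ℕ)))
      (fun I => μ I.2) b := by
  refine sep_of_find ?_
  have hf : PTime (fun x => encW (parseW x).tail) := encW_ptime (PTime.tail parseW_ptime)
  have hh : PTime (fun x => mydiv (m (parseW x).tail) b) :=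
    mydiv_ptime (hm.comp (PTime.tail parseW_ptime)) (PTime.const b)
  have hx : ∀ (t : ℕ) (F : List (Con ar)),
      parseW (enM (t, F)) = [List.replicate t true] :: F.map wordC := by
    intro t F
    unfold enM
    rw [parseW_encW]
  have hlen : ∀ (t : ℕ) (F : List (Con ar)), (codeC F).length ≤ (enM (t, F)).length := by
    intro t F
    have h1 : enM (t, F) = encW [[List.replicate t true]] ++ codeC F := by
      rw [codeC_eq]
      unfold enM encW
      simp only [List.flatMap_cons, List.flatMap_nil, List.append_nil]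
    rw [h1, List.length_append]
    omega
  refine find_transfer (R := d) hf hh (outM_ptime (tabV φ) p q) ?_ ?_ hs
  · rintro ⟨t, F⟩ _
    exact (hμ F).trans (hlen t F)
  · rintro ⟨t, F⟩ hV
    refine ⟨F, hV, ?_, ?_, ?_, ?_⟩
    · rw [hx, List.tail_cons, codeC_eq]
    · rintro w ⟨a, rfl, ha⟩
      have hth : thI (enM (t, F)) = t := by
        unfold thI
        rw [hx]
        simp
      constructor
      · have h1 := outW_length_le F a
        have h2 := plc_length_le F
        have h3 := hlen t F
        exact h1.trans (Nat.mul_le_mul_left d (by omega))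
      · unfold outM
        simp only
        rw [hth, hx, List.tail_cons, valX_eq ht φ F a]
        have hq' : (0 : ℚ) < ((q : ℕ) : ℚ) := by exact_mod_cast hq
        constructor
        · rintro ⟨a', ha'⟩
          simp only at ha'
          have h1 := ha a'
          have h2 : ((q : ℕ) : ℚ) * ((1 - (p : ℚ) / ((q : ℕ) : ℚ)) * ((valC φ a' F : ℕ) : ℚ)) =
              (((q : ℕ) : ℚ) - (p : ℚ)) * ((valC φ a' F : ℕ) : ℚ) := by
            field_simp
          have h3 := mul_le_mul_of_nonneg_left h1 hq'.le
          rw [h2] at h3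
          have h4 : (t : ℚ) ≤ ((valC φ a' F : ℕ) : ℚ) := by exact_mod_cast ha'
          have h5 : (0 : ℚ) ≤ ((q : ℕ) : ℚ) - (p : ℚ) := by
            have : (p : ℚ) ≤ ((q : ℕ) : ℚ) := by exact_mod_cast hpq
            linarith
          have h6 := mul_le_mul_of_nonneg_left h4 h5
          have h7 : ((q : ℕ) : ℚ) * (t : ℚ) ≤
              ((q : ℕ) : ℚ) * ((valC φ a F : ℕ) : ℚ) + (p : ℚ) * (t : ℚ) := by
            have h8 : (((q : ℕ) : ℚ) - (p : ℚ)) * (t : ℚ) =
              ((q : ℕ) : ℚ) * (t : ℚ) - (p : ℚ) * (t : ℚ) := by ring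
            linarith
          have h9 : q * t ≤ q * valC φ a F + p * t := by exact_mod_cast h7
          rw [decide_eq_true h9]
        · intro hN
          have h1 := hN a
          simp only at h1
          rw [lt_frac_iff hq] at h1
          rw [decide_eq_false (by omega)]
    · rw [hx, List.tail_cons, hmμ, mydiv_eq hb]
    · rw [hx, List.tail_cons, hmμ, mydiv_eq hb]

theorem p_SF : S_SF := by
  intro g d ar φ V p q b hp hpq hb hs
  exact SF_max SP.tab φ (by omega) hpq.le hb (m := List.length) (PTime.length PTime.id)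
    (fun F => List.length_map _) (fun F => length_le_code F) hs

end Pool.Agent.Lib.MP_87d05f_lc.DG
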